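import Pool.Agent.H98.CE.Targets

/-!
# Row DS1: the dressed functional, deterministic properties (helper36)
-/

set_option autoImplicit false

open MeasureTheory ProbabilityTheory Filter Topology
open Pool.Agent.H95 Pool.Agent.H95.Cop
open Pool.Agent.H55.CG (pz VV Mo)
open Pool.Agent.H98.CE

namespace Pool.Agent.H36.CEL

lemma dep_sh {β : Type*} {n ℓ M i : ℕ} {f : (ℕ → ℝ) → β} (hf : DepLt (n * ℓ) f)
    (hi : i < M) : DepLt (M * n * ℓ) (fun x => f (shift (i * (n * ℓ)) x)) := by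
  intro x x' hx
  apply hf
  intro j hj
  simp only [shift_apply]
  apply hx
  have h1 : (i + 1) * (n * ℓ) ≤ M * (n * ℓ) := Nat.mul_le_mul_right _ hi
  have h2 : (i + 1) * (n * ℓ) = i * (n * ℓ) + n * ℓ := by ring
  have h3 : M * n * ℓ = M * (n * ℓ) := by ring
  omega

lemma oa_dep {n ℓ M : ℕ} {lab : (ℕ → ℝ) → ℕ} (hl : DepLt (n * ℓ) lab) (i : ℕ) {x x' : ℕ → ℝ}
    (hx : ∀ j < M * n * ℓ, x j = x' j) : oa n ℓ M lab i x ↔ oa n ℓ M lab i x' := by
  unfold oa
  refine forall_congr' fun k => forall_congr' fun hk => ?_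
  have := dep_sh hl hk x x' hx
  simp only at this
  rw [this]

lemma oa_meas {n ℓ M : ℕ} {lab : (ℕ → ℝ) → ℕ} (hl : Measurable lab) (i : ℕ) :
    MeasurableSet {x : ℕ → ℝ | oa n ℓ M lab i x} := by
  have h1 : {x : ℕ → ℝ | oa n ℓ M lab i x} = ⋂ k : ℕ, ⋂ _ : k < M,
      (fun x => lab (shift (k * (n * ℓ)) x)) ⁻¹' {m : ℕ | 1 ≤ m ↔ k = i} := by
    ext x
    simp [oa]
  rw [h1]
  refine MeasurableSet.iInter fun k => MeasurableSet.iInter fun _ => ?_
  exact (hl.comp (measurable_shift _)) MeasurableSet.of_discrete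

lemma oa_uni {n ℓ M : ℕ} {lab : (ℕ → ℝ) → ℕ} {i i' : ℕ} {x : ℕ → ℝ} (hi : i < M)
    (h : oa n ℓ M lab i x) (h' : oa n ℓ M lab i' x) : i = i' :=
  (h' i hi).1 ((h i hi).2 rfl)

theorem pf_DS1 (hPCB : T_PCB) (hPXS : T_PXS) (hDRE : T_DRE) (hFWB : T_FWB) (hSFB : T_SFB) :
    T_DS1 := by
  classical
  intro K ν _ ℓ α β κ n J t C E w lab hℓ hα hκ hHK hn hO glo ghi k M lo hi hglo hsum h1 h2
  have hhi : hi ≤ M := by
    refine Nat.le_of_mul_le_mul_right (c := n) ?_ (by omega)
    omega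
  have hF : ∀ i, _ := fun i => hFWB K ν ℓ α κ n glo ghi hℓ hα hκ hglo hsum k (i * n)
  have hS := hSFB K ν ℓ α κ n glo ghi hℓ hα hκ hglo hsum k
  have hki : ∀ i, i ∈ Finset.Ico lo hi → k * ghi ≤ i * n := by
    intro i hi'
    rw [Finset.mem_Ico] at hi'
    exact h1.trans (Nat.mul_le_mul_right n hi'.1)
  have hkM : ∀ i, i ∈ Finset.Ico lo hi → i * n + n + k * (ghi + 1) ≤ M * n := by
    intro i hi'
    rw [Finset.mem_Ico] at hi'
    have : (i + 1) * n ≤ hi * n := Nat.mul_le_mul_right n hi'.2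
    have h3 : (i + 1) * n = i * n + n := by ring
    omega
  have hmw : ∀ i, Measurable fun x : ℕ → ℝ => w (shift (i * (n * ℓ)) x) := fun i =>
    hO.mw.comp (measurable_shift _)
  have hml : ∀ i, Measurable fun x : ℕ → ℝ => lab (shift (i * (n * ℓ)) x) := fun i =>
    hO.ml.comp (measurable_shift _)
  have hms : ∀ i, Measurable fun x : ℕ → ℝ =>
      sf K ℓ α κ n glo ghi k (shift ((i + 1) * (n * ℓ)) x) := fun i =>
    hS.1.comp (measurable_shift _)
  have hdw : ∀ x, dw K ℓ α κ n glo ghi k M lo hi w lab x = ∑ i ∈ Finset.Ico lo hi,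
      if oa n ℓ M lab i x then fw K ℓ α κ n glo ghi x k (i * n) *
        w (shift (i * (n * ℓ)) x) *
        sf K ℓ α κ n glo ghi k (shift ((i + 1) * (n * ℓ)) x) else 0 := by
    intro x
    unfold dw
    refine Finset.sum_congr rfl fun i _ => ?_
    split_ifs <;> rfl
  have hdl : ∀ x, dl n ℓ M lo hi lab x = ∑ i ∈ Finset.Ico lo hi,
      if oa n ℓ M lab i x then lab (shift (i * (n * ℓ)) x) else 0 := by
    intro x
    unfold dl
    refine Finset.sum_congr rfl fun i _ => ?_
    split_ifs <;> rfl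
  refine ⟨?_, ?_, ?_, ?_, ?_⟩
  · have : dw K ℓ α κ n glo ghi k M lo hi w lab = fun x => _ := funext hdw
    rw [this]
    exact Finset.measurable_sum _ fun i _ => Measurable.ite (oa_meas hO.ml i)
      (((hF i).1.mul (hmw i)).mul (hms i)) measurable_const
  · have : dl n ℓ M lo hi lab = fun x => _ := funext hdl
    rw [this]
    exact Finset.measurable_sum _ fun i _ => Measurable.ite (oa_meas hO.ml i) (hml i)
      measurable_const
  · intro x x' hx
    rw [hdw, hdw]
    refine Finset.sum_congr rfl fun i hi' => ?_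
    have hiM : i < M := lt_of_lt_of_le (Finset.mem_Ico.1 hi').2 hhi
    have e1 : oa n ℓ M lab i x ↔ oa n ℓ M lab i x' := oa_dep hO.dl i hx
    have e2 : w (shift (i * (n * ℓ)) x) = w (shift (i * (n * ℓ)) x') :=
      dep_sh hO.dw hiM x x' hx
    have e3 : fw K ℓ α κ n glo ghi x k (i * n) = fw K ℓ α κ n glo ghi x' k (i * n) := by
      refine (((hF i).2.2 (hki i hi')).1.mono ?_) x x' hx
      exact Nat.mul_le_mul_right ℓ (Nat.mul_le_mul_right n hiM.le)
    have e4 : sf K ℓ α κ n glo ghi k (shift ((i + 1) * (n * ℓ)) x) =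
        sf K ℓ α κ n glo ghi k (shift ((i + 1) * (n * ℓ)) x') := by
      apply hS.2.2.1
      intro j hj
      simp only [shift_apply]
      apply hx
      have h5 := Nat.mul_le_mul_right ℓ (hkM i hi')
      have h6 : (i * n + n + k * (ghi + 1)) * ℓ =
          (i + 1) * (n * ℓ) + k * (ghi + 1) * ℓ := by ring
      omega
    rw [e2, e3, e4]
    exact if_congr e1 rfl rfl
  · intro x x' hx
    rw [hdl, hdl]
    refine Finset.sum_congr rfl fun i hi' => ?_
    have hiM : i < M := lt_of_lt_of_le (Finset.mem_Ico.1 hi').2 hhi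
    have e1 : oa n ℓ M lab i x ↔ oa n ℓ M lab i x' := oa_dep hO.dl i hx
    have e2 : lab (shift (i * (n * ℓ)) x) = lab (shift (i * (n * ℓ)) x') :=
      dep_sh hO.dl hiM x x' hx
    rw [e2]
    exact if_congr e1 rfl rfl
  · intro x
    by_cases hex : ∃ i ∈ Finset.Ico lo hi, oa n ℓ M lab i x
    · obtain ⟨i, hi', hoa⟩ := hex
      have hiM : i < M := lt_of_lt_of_le (Finset.mem_Ico.1 hi').2 hhi
      have hdwx : dw K ℓ α κ n glo ghi k M lo hi w lab x =
          fw K ℓ α κ n glo ghi x k (i * n) * w (shift (i * (n * ℓ)) x) *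
            sf K ℓ α κ n glo ghi k (shift ((i + 1) * (n * ℓ)) x) := by
        rw [hdw, Finset.sum_eq_single_of_mem i hi', if_pos hoa]
        intro j _ hji
        rw [if_neg]
        intro hj
        exact hji (oa_uni hiM hoa hj).symm
      have hdlx : dl n ℓ M lo hi lab x = lab (shift (i * (n * ℓ)) x) := by
        rw [hdl, Finset.sum_eq_single_of_mem i hi', if_pos hoa]
        intro j _ hji
        rw [if_neg]
        intro hj
        exact hji (oa_uni hiM hoa hj).symm
      have hlab1 : 1 ≤ lab (shift (i * (n * ℓ)) x) := (hoa i hiM).2 rfl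
      have hf1 : 1 ≤ fw K ℓ α κ n glo ghi x k (i * n) := ((hF i).2.1 x).1
      have hs1 : 1 ≤ sf K ℓ α κ n glo ghi k (shift ((i + 1) * (n * ℓ)) x) :=
        (hS.2.1 _).1
      have hw0 : 0 ≤ w (shift (i * (n * ℓ)) x) := hO.nonneg _
      have hfw : w (shift (i * (n * ℓ)) x) ≤
          fw K ℓ α κ n glo ghi x k (i * n) * w (shift (i * (n * ℓ)) x) := by
        nlinarith
      have hfw0 : 0 ≤ fw K ℓ α κ n glo ghi x k (i * n) * w (shift (i * (n * ℓ)) x) :=
        hw0.trans hfw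
      have hfs : fw K ℓ α κ n glo ghi x k (i * n) * w (shift (i * (n * ℓ)) x) ≤
          fw K ℓ α κ n glo ghi x k (i * n) * w (shift (i * (n * ℓ)) x) *
            sf K ℓ α κ n glo ghi k (shift ((i + 1) * (n * ℓ)) x) :=
        le_mul_of_one_le_right hfw0 hs1
      rw [hdwx, hdlx]
      refine ⟨hfw0.trans hfs, ?_, ?_, ?_, hO.labJ _⟩
      · have h5 := hDRE K ℓ α κ hℓ hα hκ hHK n glo ghi hn hglo x k (i * n) (M * n)
          (hki i hi') (hkM i hi') (w (shift (i * (n * ℓ)) x)) hw0 (by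
            rw [mul_assoc]; exact hO.le _)
        have h6 : (i * n + n) * ℓ = (i + 1) * (n * ℓ) := by ring
        rw [h6] at h5
        exact h5
      · intro h0
        omega
      · intro h0
        exact (hO.low _ h0).trans (hfw.trans hfs)
    · have hdwx : dw K ℓ α κ n glo ghi k M lo hi w lab x = 0 := by
        rw [hdw]
        refine Finset.sum_eq_zero fun i hi' => ?_
        rw [if_neg fun h => hex ⟨i, hi', h⟩]
      have hdlx : dl n ℓ M lo hi lab x = 0 := by
        rw [hdl]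
        refine Finset.sum_eq_zero fun i hi' => ?_
        rw [if_neg fun h => hex ⟨i, hi', h⟩]
      rw [hdwx, hdlx]
      refine ⟨le_rfl, ((hPXS K ℓ hℓ 0 (M * n) 0 (M * n)).1 x).1, fun _ => rfl,
        fun h => absurd rfl h, Nat.zero_le _⟩

end Pool.Agent.H36.CEL
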